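import Pool.Agent.helper36.MP.SpecQ

/-! # Project mp, module FR: rotation of flat discs, final form -/

set_option autoImplicit false

open Complex Metric Set Filter Topology MeasureTheory

namespace MPS

theorem FR_zero (hND : ND_stmt) (hTBD : TBD_stmt) (hPH1 : PH1_stmt) (hPH2 : PH2_stmt)
    (hROT : ROT_stmt) (ρ₀ ρ₁ δ R₁ R₂ : ℝ) (h0 : 0 < ρ₀) (h1 : ρ₀ ≤ 1) (hρ₁ : ρ₁ = ρ₀ / 16)
    (hδ : δ = ρ₁ / 64)
    (hR₁ : ∀ (k : ℕ) [NeZero k] (b g : ZMod k → ℂ) (i : ZMod k) (ψ : ℂ → ℂ), 2 ≤ k →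
      Function.Injective b → (∀ j, ‖b j‖ ≤ 4) → PN b g i ψ 1 →
      ∀ u : ℂ, ‖u‖ ≤ Real.exp (-δ) → ‖ψ u‖ < R₁)
    (hR₂ : ∀ (k : ℕ) [NeZero k] (b g : ZMod k → ℂ) (i : ZMod k) (ψ χ : ℂ → ℂ) (y : ℝ), 2 ≤ k →
      Function.Injective b → (∀ j, ‖b j‖ ≤ 4) → PN b g i ψ 1 →
      IsNat b g χ (HP 0 ∪ ball ((y : ℂ) * I) ρ₀) → EqOn χ (hat ψ) (HP 0) →
      ∀ w ∈ ball ((y : ℂ) * I) (ρ₀ / 16), ‖χ w‖ < R₂)
    (n k : ℕ) [NeZero k] (c : ℂ) (b g : ZMod k → ℂ) (ψ : ZMod k → ℂ → ℂ) (R ε : ℝ)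
    (su : SU n k c b g ψ R ε) (hRR₁ : R₁ ≤ R) (hRR₂ : R₂ ≤ R) (hε1 : ε ≤ δ ^ 3 / 10 ^ 16)
    (hε2 : ε ≤ ρ₁ ^ 2 / 4 ^ 200) (y : ℝ) (hF : Flat b g (ψ 0) y ρ₀) :
    Flat b g (ψ 0) (y - (rho n b).arg) (ρ₀ / 64) := by
  classical
  obtain ⟨χ, hnat, hext⟩ := hF
  have hb4 : ∀ j, ‖b j‖ ≤ 4 := fun j => ((hTBD n c su.hn su.hc).2.2 k b su.cyc j).le
  have hρpos : 0 < ρ₁ := by rw [hρ₁]; positivity
  have hδpos : 0 < δ := by rw [hδ]; positivity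
  have hδ20 : δ ≤ 1 / 20 := by
    rw [hδ, hρ₁]
    linarith
  have hmp0 : MapsTo (ψ 0) (ball 0 (Real.exp (-δ))) (ball 0 R) := by
    intro u hu
    rw [mem_ball_zero_iff] at hu ⊢
    exact (hR₁ k b g 0 (ψ 0) su.hk su.cyc.inj hb4 (su.mx 0).pn u hu.le).trans_le hRR₁
  obtain ⟨G1, hG1⟩ := hPH1 n k c b g ψ R ε δ su hδpos hδ20 hmp0 hε1
  have hmp1 : MapsTo χ (ball ((y : ℂ) * I) ρ₁) (ball 0 R) := by
    intro w hw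
    rw [mem_ball_zero_iff]
    rw [hρ₁] at hw
    exact (hR₂ k b g 0 (ψ 0) χ y su.hk su.cyc.inj hb4 (su.mx 0).pn hnat hext w hw).trans_le hRR₂
  obtain ⟨ps, hps⟩ : ∃ ps : ℕ, ∀ p : ℕ, 1 ≤ p → p < k →
      χ ((y : ℂ) * I + 6 * ρ₁) ∈ ψ (-(p : ZMod k)) '' ball 0 1 → p = ps := by
    by_cases hex : ∃ p : ℕ, 1 ≤ p ∧ p < k ∧
        χ ((y : ℂ) * I + 6 * ρ₁) ∈ ψ (-(p : ZMod k)) '' ball 0 1
    · obtain ⟨ps, hp1, hp2, hp3⟩ := hex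
      refine ⟨ps, fun p hq1 hq2 hq3 => ?_⟩
      by_contra hne
      have hne' : (-(p : ZMod k)) ≠ -(ps : ZMod k) := by
        intro h
        rw [neg_inj, ZMod.natCast_eq_natCast_iff'] at h
        rw [Nat.mod_eq_of_lt hq2, Nat.mod_eq_of_lt hp2] at h
        exact hne h
      have hd := hND k b g _ _ (ψ (-(p : ZMod k))) (ψ (-(ps : ZMod k))) su.cyc.inj hne'
        (su.mx _) (su.mx _)
      exact Set.disjoint_left.mp hd hq3 hp3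
    · exact ⟨0, fun p hq1 hq2 hq3 => absurd ⟨p, hq1, hq2, hq3⟩ hex⟩
  have h16 : 16 * ρ₁ = ρ₀ := by rw [hρ₁]; ring
  have su2 : SU2 n k c b g ψ R ε y ρ₁ χ G1 ps := by
    refine ⟨su, hρpos, by rw [h16]; exact h1, ?_, hext, ?_, hmp1, ?_, hps⟩
    · rw [h16]
      exact hnat
    · rw [← hδ]
      exact hmp0
    · rw [← hδ]
      exact hG1
  obtain ⟨r, G, hH2⟩ := hPH2 n k c b g ψ R ε y ρ₁ χ G1 ps su2 hε2
  have hε3 : ε ≤ ρ₁ ^ 2 / 10 ^ 7 := by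
    refine hε2.trans ?_
    apply div_le_div_of_nonneg_left (by positivity) (by norm_num)
    norm_num
  have hfin := hROT n k c b g ψ R ε y ρ₁ r χ G1 ps G hH2 hε3
  have e64 : ρ₁ / 4 = ρ₀ / 64 := by rw [hρ₁]; ring
  rwa [e64] at hfin

theorem FR (hNG : NG_stmt) (hNGF : NGF_stmt) (hND : ND_stmt) (hTBD : TBD_stmt) (hTR : TR_stmt)
    (hPH1 : PH1_stmt) (hPH2 : PH2_stmt) (hROT : ROT_stmt) : FR_stmt := by
  intro n ρ₀ hn h0 h1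
  obtain ⟨ρ₁, hρ₁⟩ : ∃ ρ₁, ρ₁ = ρ₀ / 16 := ⟨_, rfl⟩
  obtain ⟨δ, hδ⟩ : ∃ δ, δ = ρ₁ / 64 := ⟨_, rfl⟩
  have hρpos : 0 < ρ₁ := by rw [hρ₁]; positivity
  have hδpos : 0 < δ := by rw [hδ]; positivity
  obtain ⟨R₁, hR₁4, hR₁⟩ := hNG δ hδpos
  obtain ⟨R₂, hR₂4, hR₂⟩ := hNGF ρ₀ h0 h1
  refine ⟨max R₁ R₂, hR₁4.trans (le_max_left _ _), min (δ ^ 3 / 10 ^ 16) (ρ₁ ^ 2 / 4 ^ 200),
    lt_min (by positivity) (by positivity), ?_⟩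
  intro k _ c b g ψ R ε su hR hε i y hF
  obtain ⟨su', hrho, -, hflat⟩ := hTR n k c b g ψ R ε i su
  have h2 := FR_zero hND hTBD hPH1 hPH2 hROT ρ₀ ρ₁ δ R₁ R₂ h0 h1 hρ₁ hδ hR₁ hR₂ n k c
    (fun j => b (i + j)) (fun j => g (i + j)) (fun j => ψ (i + j)) R ε su'
    ((le_max_left _ _).trans hR) ((le_max_right _ _).trans hR) (hε.trans (min_le_left _ _))
    (hε.trans (min_le_right _ _)) y (by
      rw [hflat]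
      simpa using hF)
  rw [hflat, hrho] at h2
  simpa using h2

end MPS

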