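import Pool.Agent.helper36.MP.SpecN

/-! # Project mp, module NU: uniqueness of natural maps -/

set_option autoImplicit false

open Complex Metric Set Filter Topology MeasureTheory

namespace MPS

theorem NU_core (hNL0 : NL0_stmt) (k : ℕ) [NeZero k] (b g : ZMod k → ℂ) (χ₁ χ₂ : ℂ → ℂ)
    (Ω₁ Ω₂ : Set ℂ) (w₁ w₂ s : ℂ) (hs : s = 1 ∨ s = -1) (hΩ₁ : IsOpen Ω₁) (hΩ₂ : IsOpen Ω₂)
    (h1 : IsNat b g χ₁ Ω₁) (h2 : IsNat b g χ₂ Ω₂) (hv : χ₁ w₁ = χ₂ w₂)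
    (hd : deriv χ₁ w₁ = s * deriv χ₂ w₂) (K : Set ℂ) (hK : IsPreconnected K) (h0 : (0 : ℂ) ∈ K)
    (hKA : ∀ h ∈ K, w₁ + h ∈ Ω₁ ∧ w₂ + s * h ∈ Ω₂) :
    ∀ h ∈ K, χ₁ (w₁ + h) = χ₂ (w₂ + s * h) ∧
      deriv χ₁ (w₁ + h) = s * deriv χ₂ (w₂ + s * h) := by
  have hc1 : Continuous fun y : ℂ => w₁ + y := by fun_prop
  have hc2 : Continuous fun y : ℂ => w₂ + s * y := by fun_prop
  obtain ⟨S, hSdef⟩ : ∃ S : Set ℂ, S = {h | (w₁ + h ∈ Ω₁ ∧ w₂ + s * h ∈ Ω₂) ∧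
    χ₁ (w₁ + h) = χ₂ (w₂ + s * h) ∧ deriv χ₁ (w₁ + h) = s * deriv χ₂ (w₂ + s * h)} := ⟨_, rfl⟩
  have hmem : ∀ h, h ∈ S ↔ (w₁ + h ∈ Ω₁ ∧ w₂ + s * h ∈ Ω₂) ∧
    χ₁ (w₁ + h) = χ₂ (w₂ + s * h) ∧ deriv χ₁ (w₁ + h) = s * deriv χ₂ (w₂ + s * h) := by
    intro h
    rw [hSdef]
    exact Iff.rfl
  have hSopen : IsOpen S := by
    rw [isOpen_iff_mem_nhds]
    intro h hh
    obtain ⟨⟨ha, hb⟩, hc, hdd⟩ := (hmem h).mp hh
    obtain ⟨ε, hε, hNL⟩ := hNL0 k b g χ₁ χ₂ Ω₁ Ω₂ (w₁ + h) (w₂ + s * h) s hΩ₁ hΩ₂ h1 h2 ha hb hc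
      hs hdd
    have hval : ∀ x ∈ ball h ε, χ₁ (w₁ + x) = χ₂ (w₂ + s * x) := by
      intro x hx
      have h3 := hNL (x - h) (by rw [mem_ball_zero_iff, ← dist_eq_norm]; exact hx)
      have e1 : w₁ + h + (x - h) = w₁ + x := by ring
      have e2 : w₂ + s * h + s * (x - h) = w₂ + s * x := by ring
      rwa [e1, e2] at h3
    have hn1 : ∀ᶠ x in 𝓝 h, w₁ + x ∈ Ω₁ := hc1.continuousAt.eventually (hΩ₁.mem_nhds ha)
    have hn2 : ∀ᶠ x in 𝓝 h, w₂ + s * x ∈ Ω₂ := hc2.continuousAt.eventually (hΩ₂.mem_nhds hb)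
    filter_upwards [isOpen_ball.mem_nhds (mem_ball_self hε), hn1, hn2] with x hx hx1 hx2
    refine (hmem x).mpr ⟨⟨hx1, hx2⟩, hval x hx, ?_⟩
    have d1 : HasDerivAt (fun y : ℂ => χ₁ (w₁ + y)) (deriv χ₁ (w₁ + x)) x := by
      have h4 : HasDerivAt χ₁ (deriv χ₁ (w₁ + x)) (w₁ + x) :=
        (h1.diff.differentiableAt (hΩ₁.mem_nhds hx1)).hasDerivAt
      have h5 : HasDerivAt (fun y : ℂ => w₁ + y) 1 x := (hasDerivAt_id x).const_add w₁
      have h6 := h4.comp x h5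
      rw [mul_one] at h6
      exact h6
    have d2 : HasDerivAt (fun y : ℂ => χ₂ (w₂ + s * y)) (deriv χ₂ (w₂ + s * x) * s) x := by
      have h4 : HasDerivAt χ₂ (deriv χ₂ (w₂ + s * x)) (w₂ + s * x) :=
        (h2.diff.differentiableAt (hΩ₂.mem_nhds hx2)).hasDerivAt
      have h5 : HasDerivAt (fun y : ℂ => w₂ + s * y) s x := by
        have h7 := ((hasDerivAt_id x).const_mul s).const_add w₂
        rw [mul_one] at h7
        exact h7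
      exact h4.comp x h5
    have h8 : (fun y : ℂ => χ₁ (w₁ + y)) =ᶠ[𝓝 x] fun y : ℂ => χ₂ (w₂ + s * y) := by
      filter_upwards [isOpen_ball.mem_nhds hx] with y hy
      exact hval y hy
    rw [mul_comm]
    exact d1.unique (d2.congr_of_eventuallyEq h8)
  have hsub : K ⊆ S := by
    refine hK.subset_of_closure_inter_subset hSopen ⟨0, h0, (hmem 0).mpr ⟨hKA 0 h0, ?_, ?_⟩⟩ ?_
    · rw [add_zero, mul_zero, add_zero]
      exact hv
    · rw [add_zero, mul_zero, add_zero]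
      exact hd
    · rintro h ⟨hcl, hKh⟩
      obtain ⟨ha, hb⟩ := hKA h hKh
      have hNB : (𝓝[S] h).NeBot := mem_closure_iff_nhdsWithin_neBot.mp hcl
      have c1 : ContinuousAt (fun y : ℂ => χ₁ (w₁ + y)) h :=
        ContinuousAt.comp (f := fun y : ℂ => w₁ + y) (g := χ₁)
          (h1.diff.differentiableAt (hΩ₁.mem_nhds ha)).continuousAt hc1.continuousAt
      have c2 : ContinuousAt (fun y : ℂ => χ₂ (w₂ + s * y)) h :=
        ContinuousAt.comp (f := fun y : ℂ => w₂ + s * y) (g := χ₂)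
          (h2.diff.differentiableAt (hΩ₂.mem_nhds hb)).continuousAt hc2.continuousAt
      have c3 : ContinuousAt (fun y : ℂ => deriv χ₁ (w₁ + y)) h :=
        ContinuousAt.comp (f := fun y : ℂ => w₁ + y) (g := deriv χ₁)
          ((h1.diff.deriv hΩ₁).differentiableAt (hΩ₁.mem_nhds ha)).continuousAt hc1.continuousAt
      have c4 : ContinuousAt (fun y : ℂ => deriv χ₂ (w₂ + s * y)) h :=
        ContinuousAt.comp (f := fun y : ℂ => w₂ + s * y) (g := deriv χ₂)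
          ((h2.diff.deriv hΩ₂).differentiableAt (hΩ₂.mem_nhds hb)).continuousAt hc2.continuousAt
      have c5 : ContinuousAt (fun y : ℂ => s * deriv χ₂ (w₂ + s * y)) h := continuousAt_const.mul c4
      refine (hmem h).mpr ⟨⟨ha, hb⟩, ?_, ?_⟩
      · refine tendsto_nhds_unique_of_eventuallyEq (l := 𝓝[S] h)
          (c1.tendsto.mono_left nhdsWithin_le_nhds)
          (c2.tendsto.mono_left nhdsWithin_le_nhds) ?_
        filter_upwards [self_mem_nhdsWithin] with y hy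
        exact ((hmem y).mp hy).2.1
      · refine tendsto_nhds_unique_of_eventuallyEq (l := 𝓝[S] h)
          (c3.tendsto.mono_left nhdsWithin_le_nhds)
          (c5.tendsto.mono_left nhdsWithin_le_nhds) ?_
        filter_upwards [self_mem_nhdsWithin] with y hy
        exact ((hmem y).mp hy).2.2
  intro h hh
  exact ((hmem h).mp (hsub hh)).2

theorem NU (hNL0 : NL0_stmt) : NU_stmt := by
  intro k _ b g χ₁ χ₂ Ω₁ Ω₂ w₁ w₂ hΩ₁ hΩ₂ h1 h2 hw₁ hw₂ hv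
  obtain ⟨s, hs, hd⟩ : ∃ s : ℂ, (s = 1 ∨ s = -1) ∧ deriv χ₁ w₁ = s * deriv χ₂ w₂ := by
    have e1 := h1.eq w₁ hw₁
    have e2 := h2.eq w₂ hw₂
    rw [hv] at e1
    have hB : BB b g (χ₂ w₂) ≠ 0 := by
      intro h
      rw [h, mul_zero] at e2
      exact zero_ne_one e2
    have e3 : deriv χ₁ w₁ ^ 2 = deriv χ₂ w₂ ^ 2 := by
      apply mul_right_cancel₀ hB
      rw [e1, e2]
    rcases sq_eq_sq_iff_eq_or_eq_neg.mp e3 with h | h
    · exact ⟨1, Or.inl rfl, by rw [one_mul]; exact h⟩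
    · exact ⟨-1, Or.inr rfl, by rw [neg_one_mul]; exact h⟩
  refine ⟨s, hs, hd, ?_, ?_⟩
  · intro K _ hK h0 hKA h hh
    exact (NU_core hNL0 k b g χ₁ χ₂ Ω₁ Ω₂ w₁ w₂ s hs hΩ₁ hΩ₂ h1 h2 hv hd K hK h0 hKA h hh).1
  · intro h₀ hseg
    have hK : IsPreconnected ((fun t : ℝ => (t : ℂ) * h₀) '' Icc (0 : ℝ) 1) := by
      refine isPreconnected_Icc.image _ (Continuous.continuousOn ?_)
      exact Complex.continuous_ofReal.mul continuous_const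
    refine NU_core hNL0 k b g χ₁ χ₂ Ω₁ Ω₂ w₁ w₂ s hs hΩ₁ hΩ₂ h1 h2 hv hd _ hK ?_ ?_ h₀ ?_
    · exact ⟨0, left_mem_Icc.mpr zero_le_one, by simp⟩
    · rintro _ ⟨t, ht, rfl⟩
      exact hseg t ht
    · exact ⟨1, right_mem_Icc.mpr zero_le_one, by simp⟩

end MPS

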