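import Pool.Agent.helper36.MP.SpecP

/-! # Project mp, module STEP1: one more level -/

set_option autoImplicit false

open Complex Metric Set Filter Topology MeasureTheory

namespace MPS

theorem STEP1 (hLR : LR_stmt) : STEP1_stmt := by
  intro n k _ c b g ψ R ε δ A G Q H hQk
  have su := H.su
  have sys := H.sys
  have hcyc := su.cyc
  have hpn : PN b g 0 (ψ 0) 1 := (su.mx 0).pn
  have hn0 : n ≠ 0 := by have := su.hn; omega
  have hbc : ∀ i, b i ≠ c := by
    intro i h
    have h1 := hcyc.step (i - 1)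
    rw [sub_add_cancel, h] at h1
    have h2 : b (i - 1) ^ n = 0 := by
      linear_combination h1
    exact hcyc.ne0 (i - 1) (pow_eq_zero_iff hn0 |>.mp h2)
  have hval : G Q 0 = b (-(Q : ZMod k)) := sys.val Q le_rfl
  -- A is increasing
  have hA0 : ∀ q, q ≤ Q → 2 * δ ≤ A q := by
    intro q
    induction q with
    | zero => intro _; exact sys.a0
    | succ q ih =>
      intro hq
      exact (ih (by omega)).trans (sys.mono q (by omega))
  have hdiff : DifferentiableOn ℂ (G Q) (ball 0 (Real.exp (-A Q))) := by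
    rcases Nat.eq_zero_or_pos Q with h0 | h0
    · rw [h0, sys.g0]
      refine hpn.diff.mono (ball_subset_ball ?_)
      rw [Real.exp_le_one_iff]
      have := sys.a0
      have := H.d0
      linarith
    · exact sys.diff Q h0 le_rfl
  have hcont : ContinuousAt (G Q) 0 :=
    (hdiff.differentiableAt (isOpen_ball.mem_nhds (mem_ball_self (Real.exp_pos _)))).continuousAt
  obtain ⟨S, hS⟩ : ∃ S : Set ℝ, S = {a | A Q ≤ a ∧ ¬ Fail1 c (ψ 0) δ G Q a} := ⟨_, rfl⟩
  have hmemS : ∀ a, a ∈ S ↔ A Q ≤ a ∧ ¬ Fail1 c (ψ 0) δ G Q a := by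
    intro a
    rw [hS]
    exact Iff.rfl
  -- S is not empty
  have hne : S.Nonempty := by
    have h1 : ∀ᶠ u in 𝓝 (0 : ℂ), G Q u ≠ c := by
      refine hcont.eventually_ne ?_
      rw [hval]
      exact hbc _
    have h2 : ∀ᶠ u in 𝓝 (0 : ℂ), 1 ≤ Q → G Q u ∉ ψ 0 '' ball 0 (Real.exp (-δ)) := by
      by_cases hQ1 : 1 ≤ Q
      · have hδ1 : Real.exp (-δ) < 1 := by
          rw [Real.exp_lt_one_iff]
          have := H.d0
          linarith
        have hsub : closedBall (0 : ℂ) (Real.exp (-δ)) ⊆ ball 0 1 :=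
          closedBall_subset_ball hδ1
        have hcomp : IsCompact (ψ 0 '' closedBall (0 : ℂ) (Real.exp (-δ))) :=
          (isCompact_closedBall _ _).image_of_continuousOn (hpn.diff.continuousOn.mono hsub)
        have hnot : G Q 0 ∉ ψ 0 '' closedBall (0 : ℂ) (Real.exp (-δ)) := by
          rintro ⟨u, hu, hu2⟩
          rw [hval] at hu2
          by_cases hu0 : u = 0
          · rw [hu0, hpn.val] at hu2
            have h3 := hcyc.inj hu2
            have h4 : (Q : ZMod k) = 0 := by
              rw [← neg_eq_zero]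
              exact h3.symm
            rw [ZMod.natCast_eq_zero_iff] at h4
            exact absurd (Nat.le_of_dvd (by omega) h4) (by omega)
          · exact hpn.av u (hsub hu) hu0 _ hu2
        have h5 := hcont.eventually (hcomp.isClosed.isOpen_compl.mem_nhds hnot)
        filter_upwards [h5] with u hu _
        intro h6
        exact hu (image_mono ball_subset_closedBall h6)
      · exact Filter.Eventually.of_forall fun u h => absurd h hQ1
    obtain ⟨η, hη, h3⟩ := Metric.eventually_nhds_iff_ball.mp (h1.and h2)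
    obtain ⟨a, ha1, ha2⟩ : ∃ a : ℝ, A Q ≤ a ∧ Real.exp (-a) ≤ η := by
      refine ⟨max (A Q) (-Real.log η), le_max_left _ _, ?_⟩
      calc Real.exp (-(max (A Q) (-Real.log η))) ≤ Real.exp (Real.log η) := by
            apply Real.exp_le_exp.mpr
            have := le_max_right (A Q) (-Real.log η)
            linarith
        _ = η := Real.exp_log hη
    refine ⟨a, (hmemS a).mpr ⟨ha1, ?_⟩⟩
    have hb : ball (0 : ℂ) (Real.exp (-a)) ⊆ ball 0 η := ball_subset_ball ha2
    rintro (⟨hQ1, hd⟩ | ⟨u, hu, hu2⟩)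
    · apply hd
      rw [Set.disjoint_left]
      rintro _ ⟨u, hu, rfl⟩
      exact (h3 u (hb hu)).2 hQ1
    · exact (h3 u (hb hu)).1 hu2
  have hbdd : BddBelow S := ⟨A Q, fun a ha => ((hmemS a).mp ha).1⟩
  obtain ⟨a', ha'⟩ : ∃ a', a' = sInf S := ⟨_, rfl⟩
  have hAa' : A Q ≤ a' := by
    rw [ha']
    exact le_csInf hne fun a ha => ((hmemS a).mp ha).1
  -- points of the ball belong to smaller balls
  have hsm : ∀ u ∈ ball (0 : ℂ) (Real.exp (-a')), ∃ s ∈ S, u ∈ ball (0 : ℂ) (Real.exp (-s)) := by
    intro u hu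
    rw [mem_ball_zero_iff] at hu
    by_cases hu0 : u = 0
    · obtain ⟨s, hs⟩ := hne
      exact ⟨s, hs, by rw [hu0]; exact mem_ball_self (Real.exp_pos _)⟩
    · have hu1 : 0 < ‖u‖ := norm_pos_iff.mpr hu0
      have h1 : Real.log ‖u‖ < -a' := (Real.log_lt_iff_lt_exp hu1).mpr hu
      obtain ⟨s, hs, hs2⟩ := exists_lt_of_csInf_lt hne (show sInf S < -Real.log ‖u‖ by
        rw [← ha']
        linarith)
      refine ⟨s, hs, ?_⟩
      rw [mem_ball_zero_iff, ← Real.log_lt_iff_lt_exp hu1]
      linarith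
  have hcnot : ∀ u ∈ ball (0 : ℂ) (Real.exp (-a')), G Q u ≠ c := by
    intro u hu h
    obtain ⟨s, hs, hus⟩ := hsm u hu
    exact ((hmemS s).mp hs).2 (Or.inr ⟨u, hus, h⟩)
  have hdisj : 1 ≤ Q → Disjoint (G Q '' ball 0 (Real.exp (-a'))) (ψ 0 '' ball 0 (Real.exp (-δ))) := by
    intro hQ1
    rw [Set.disjoint_left]
    rintro _ ⟨u, hu, rfl⟩ h
    obtain ⟨s, hs, hus⟩ := hsm u hu
    refine ((hmemS s).mp hs).2 (Or.inl ⟨hQ1, ?_⟩)
    rw [Set.not_disjoint_iff]
    exact ⟨G Q u, ⟨u, hus, rfl⟩, h⟩
  -- the root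
  have hsub : ball (0 : ℂ) (Real.exp (-a')) ⊆ ball 0 (Real.exp (-A Q)) :=
    ball_subset_ball (Real.exp_le_exp.mpr (by linarith))
  have hQZ : -((Q + 1 : ℕ) : ZMod k) + 1 = -(Q : ZMod k) := by
    push_cast
    ring
  have hstep := hcyc.step (-((Q + 1 : ℕ) : ZMod k))
  rw [hQZ] at hstep
  obtain ⟨g', hg1, hg2, hg3⟩ := hLR n (ball 0 (Real.exp (-a'))) (fun u => G Q u - c) 0
    (b (-((Q + 1 : ℕ) : ZMod k))) (by omega) isOpen_ball (convex_ball _ _)
    ((hdiff.mono hsub).sub (differentiableOn_const c))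
    (fun w hw => sub_ne_zero.mpr (hcnot w hw)) (mem_ball_self (Real.exp_pos _))
    (by
      show b (-((Q + 1 : ℕ) : ZMod k)) ^ n = G Q 0 - c
      rw [hval, ← hstep, add_sub_cancel_right])
  refine ⟨a', g', hAa', ?_, ?_⟩
  · have uA : ∀ q, q ≤ Q → Function.update A (Q + 1) a' q = A q := fun q hq =>
      Function.update_of_ne (by omega) _ _
    have uA' : Function.update A (Q + 1) a' (Q + 1) = a' := Function.update_self _ _ _
    have uG : ∀ q, q ≤ Q → Function.update G (Q + 1) g' q = G q := fun q hq =>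
      Function.update_of_ne (by omega) _ _
    have uG' : Function.update G (Q + 1) g' (Q + 1) = g' := Function.update_self _ _ _
    refine ⟨su, H.d0, H.d1, H.mp, ⟨?_, ?_, ?_, ?_, ?_, ?_, ?_⟩, by omega⟩
    · rw [uA 0 (by omega)]
      exact sys.a0
    · intro q hq
      rcases Nat.lt_or_ge q Q with h | h
      · rw [uA q (by omega), uA (q + 1) (by omega)]
        exact sys.mono q h
      · have h1 : q = Q := by omega
        rw [h1, uA Q le_rfl, uA']
        exact hAa'
    · rw [uG 0 (by omega)]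
      exact sys.g0
    · intro q hq1 hq2
      rcases Nat.lt_or_ge Q q with h | h
      · have h1 : q = Q + 1 := by omega
        rw [h1, uA', uG']
        exact hg1
      · rw [uA q h, uG q h]
        exact sys.diff q hq1 h
    · intro q hq u hu
      rcases Nat.lt_or_ge q Q with h | h
      · rw [uA (q + 1) (by omega)] at hu
        rw [uG q (by omega), uG (q + 1) (by omega)]
        exact sys.rel q h u hu
      · have h1 : q = Q := by omega
        rw [h1, uA'] at hu
        rw [h1, uG Q le_rfl, uG']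
        have h2 := hg3 u hu
        have h3 := hcnot u hu
        refine ⟨by rw [h2, sub_add_cancel], fun h4 => h3 ?_⟩
        rw [h4, zero_pow hn0] at h2
        linear_combination -h2
    · intro q hq
      rcases Nat.lt_or_ge Q q with h | h
      · have h1 : q = Q + 1 := by omega
        rw [h1, uG']
        exact hg2
      · rw [uG q h]
        exact sys.val q h
    · intro q hq1 hq2
      rcases Nat.lt_or_ge q Q with h | h
      · rw [uA (q + 1) (by omega), uG q (by omega)]
        exact sys.disj q hq1 h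
      · have h1 : q = Q := by omega
        rw [h1, uA', uG Q le_rfl]
        exact hdisj (by omega)
  · intro a ha1 ha2
    by_contra h
    have h1 : a ∈ S := (hmemS a).mpr ⟨ha1.le, h⟩
    have h2 := csInf_le hbdd h1
    rw [← ha'] at h2
    linarith

end MPS

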