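import Pool.Agent.helper36.MP.SpecZ

set_option autoImplicit false

open Complex Metric Set Filter Topology MeasureTheory

noncomputable section

namespace MPS

theorem ZK1_mlt (n : ℕ) (c z : ℂ) : mlt n 1 c z = (n : ℂ) * z ^ (n - 1) := by
  unfold mlt
  rw [Function.iterate_one]
  have h : HasDerivAt (fc n c) ((n : ℂ) * z ^ (n - 1)) z := by
    have := (hasDerivAt_pow n z).add_const c
    exact this
  exact h.deriv

theorem ZK1 : ZK1_stmt := by
  intro n U z hn hU hz hfix c hc hc3 hρ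
  obtain ⟨j, rfl⟩ : ∃ j, n = j + 2 := ⟨n - 2, by omega⟩
  have hzc : HasDerivAt z (deriv z c) c :=
    ((hz c hc).differentiableAt (hU.mem_nhds hc)).hasDerivAt
  obtain ⟨z', hz'⟩ : ∃ z', z' = deriv z c := ⟨_, rfl⟩
  rw [← hz'] at hzc
  -- the fixed point equation
  have h1 : HasDerivAt (fun c' => z c' ^ (j + 2) + c')
      (((j + 2 : ℕ) : ℂ) * z c ^ (j + 1) * z' + 1) c := by
    have h0 := (hzc.pow (j + 2)).add (hasDerivAt_id c)
    have e : (z ^ (j + 2) + id) = fun c' => z c' ^ (j + 2) + c' := by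
      funext c'; rfl
    rw [e] at h0
    exact h0
  have h2 : (fun c' => z c' ^ (j + 2) + c') =ᶠ[𝓝 c] z := by
    filter_upwards [hU.mem_nhds hc] with c' hc'
    exact hfix c' hc'
  have h3 : ((j + 2 : ℕ) : ℂ) * z c ^ (j + 1) * z' + 1 = z' :=
    (h1.congr_of_eventuallyEq h2.symm).unique hzc
  -- the multiplier
  have hm : ∀ c', mlt (j + 2) 1 c' (z c') = ((j + 2 : ℕ) : ℂ) * z c' ^ (j + 1) := fun c' => by
    rw [ZK1_mlt]; rfl
  have h4 : HasDerivAt (fun c' => mlt (j + 2) 1 c' (z c'))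
      (((j + 2 : ℕ) : ℂ) * (((j + 1 : ℕ) : ℂ) * z c ^ j * z')) c := by
    have := (hzc.pow (j + 1)).const_mul (((j + 2 : ℕ) : ℂ))
    have e : (fun c' => mlt (j + 2) 1 c' (z c')) = fun c' => ((j + 2 : ℕ) : ℂ) * z c' ^ (j + 1) := by
      funext c'; exact hm c'
    rw [e]
    simpa using this
  rw [h4.deriv, hm c]
  rw [hm c] at hρ
  obtain ⟨ρ, hρd⟩ : ∃ ρ, ρ = ((j + 2 : ℕ) : ℂ) * z c ^ (j + 1) := ⟨_, rfl⟩
  rw [← hρd] at hρ h3 ⊢
  have hρ0 : ρ ≠ 0 := by
    intro h; rw [h, norm_zero] at hρ; linarith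
  have hz0 : z c ≠ 0 := by
    intro h
    apply hρ0
    rw [hρd, h, zero_pow (by omega), mul_zero]
  have hn0 : ((j + 2 : ℕ) : ℂ) ≠ 0 := by exact_mod_cast (by omega : j + 2 ≠ 0)
  have h5 : z' * (1 - ρ) = 1 := by linear_combination -h3
  have h1ρ : 1 - ρ ≠ 0 := by
    intro h; rw [h, mul_zero] at h5; exact zero_ne_one h5
  have hz'e : z' = 1 / (1 - ρ) := by
    rw [eq_div_iff h1ρ]; exact h5
  have hq : ((j + 2 : ℕ) : ℂ) * (((j + 1 : ℕ) : ℂ) * z c ^ j * z') / ρ =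
      ((j + 1 : ℕ) : ℂ) / (z c * (1 - ρ)) := by
    rw [hz'e]
    rw [div_eq_div_iff hρ0 (mul_ne_zero hz0 h1ρ)]
    field_simp
    rw [hρd]
    ring
  rw [hq]
  -- size of z
  have hz4 : ‖z c‖ < 4 := by
    by_contra hcon
    push Not at hcon
    have e1 : z c ^ (j + 2) = z c - c := by
      have := hfix c hc
      unfold fc at this
      linear_combination this
    have e2 : ‖z c‖ ^ (j + 2) ≤ ‖z c‖ + 3 := by
      rw [← norm_pow, e1]
      exact (norm_sub_le _ _).trans (by linarith)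
    have e3 : ‖z c‖ ^ 2 ≤ ‖z c‖ ^ (j + 2) := pow_le_pow_right₀ (by linarith) (by omega)
    nlinarith
  by_cases hlog : 1 / 12 ≤ Real.log ‖ρ‖
  · linarith [norm_nonneg (((j + 1 : ℕ) : ℂ) / (z c * (1 - ρ)))]
  · push Not at hlog
    have hρ2 : ‖ρ‖ < 2 := by
      by_contra hcon
      push Not at hcon
      have : Real.log 2 ≤ Real.log ‖ρ‖ := Real.log_le_log (by norm_num) hcon
      linarith [Real.log_two_gt_d9]
    have hlogpos : 0 < Real.log ‖ρ‖ := Real.log_pos hρ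
    have e1 : ‖z c * (1 - ρ)‖ ≤ 12 := by
      rw [norm_mul]
      have : ‖1 - ρ‖ ≤ 3 := by
        have := norm_sub_le (1 : ℂ) ρ
        rw [norm_one] at this
        linarith
      nlinarith [norm_nonneg (z c), norm_nonneg (1 - ρ)]
    have e2 : 0 < ‖z c * (1 - ρ)‖ := norm_pos_iff.2 (mul_ne_zero hz0 h1ρ)
    have e3 : 1 / 12 ≤ ‖((j + 1 : ℕ) : ℂ) / (z c * (1 - ρ))‖ := by
      rw [norm_div, Complex.norm_natCast]
      rw [div_le_div_iff₀ (by norm_num) e2]
      push_cast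
      have : (0 : ℝ) ≤ j := Nat.cast_nonneg j
      nlinarith
    linarith

end MPS
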